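import Pool.Agent.helper95.RF.SpecC3
import Pool.Agent.helper47.T6.EPU

set_option autoImplicit false

/-! Row GPU of project RF stage 2: the upper bound for one modulus `k`. -/

namespace Pool.Agent.RF

open Finset NumberField Pool.Agent.helper3.FT

theorem GPU_re (E : ℕ) (M : OO) (x y : ℤ) : (M + (E : OO) * ⟨x, y⟩ : OO).re = M.re + E * x := by
  simp

theorem GPU_im (E : ℕ) (M : OO) (x y : ℤ) : (M + (E : OO) * ⟨x, y⟩ : OO).im = M.im + E * y := by
  simp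

theorem GPU (h1 : GEA_stmt) (h2 : T6.WFJ_stmt) (h3 : T6.WWY_stmt) : GPU_stmt := by
  classical
  obtain ⟨C₀, hC₀, hW⟩ := h3
  refine ⟨450 + 4 * √C₀, by have := Real.sqrt_nonneg C₀; linarith, ?_⟩
  intro E P k μ M₀ s₀ hE hkk hk10 hPk hμE
  obtain ⟨a, hRM, M₁, c₃, c₄, c₅, hr0, hr1, hi0, hi1, ht⟩ := h1 E P k μ M₀ s₀ hE hkk hk10 hPk hμE
  refine ⟨a, hRM, ?_⟩
  intro B T z₀ V F hB hT hV hTV hF
  have hE0 : (0 : ℝ) < E := by exact_mod_cast hE
  have hEZ : (0 : ℤ) < E := by exact_mod_cast hE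
  have hT0 : (0 : ℝ) < T := by exact_mod_cast hT
  have hT1 : (1 : ℝ) ≤ T := by exact_mod_cast hT
  set q3 : ℝ := (k.norm.natAbs : ℝ) ^ 3 with hq3
  set Q : ℝ := (E : ℝ) * q3 with hQ
  have hQ0 : 0 < Q := by
    refine lt_of_lt_of_le ?_ hTV
    positivity
  have hq30 : 0 < q3 := by
    rcases lt_or_ge 0 q3 with h | h
    · exact h
    · exfalso
      have : Q ≤ 0 := mul_nonpos_of_nonneg_of_nonpos hE0.le h
      linarith
  have ht' : ∀ t : OO × ℤ, ∃ x y z : ℤ, t ∈ F → t.1 = M₁ + (E : OO) * ⟨x, y⟩ ∧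
      (t.2 : ℝ) / Q = (E : ℝ) / q3 * (a.1 * x ^ 2 + a.2.1 * x * y + a.2.2 * y ^ 2) + c₃ * x + c₄ * y + c₅ + z := by
    intro t
    by_cases h : t ∈ F
    · obtain ⟨a1, a2, a3, -⟩ := hF t h
      obtain ⟨x, y, z, e1, e2⟩ := ht t.1 t.2 a1 a2 a3
      exact ⟨x, y, z, fun _ => ⟨e1, e2⟩⟩
    · exact ⟨0, 0, 0, fun h' => absurd h' h⟩
  choose mm gg zz hh using ht'
  have hVQ : V < Q := by nlinarith
  -- injectivity
  have hinj : Set.InjOn (fun t : OO × ℤ => (mm t, gg t)) (F : Set (OO × ℤ)) := by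
    intro t htF t' htF' he
    have he1 : mm t = mm t' := congrArg Prod.fst he
    have he2 : gg t = gg t' := congrArg Prod.snd he
    obtain ⟨b1, b2⟩ := hh t htF
    obtain ⟨b1', b2'⟩ := hh t' htF'
    obtain ⟨-, -, -, -, -, a3, a4⟩ := hF t htF
    obtain ⟨-, -, -, -, -, a3', a4'⟩ := hF t' htF'
    have h4 : ((t.2 : ℝ) - t'.2) / Q = ((zz t - zz t' : ℤ) : ℝ) := by
      rw [sub_div, b2, b2', he1, he2]
      push_cast
      ring
    have h5 : |((zz t - zz t' : ℤ) : ℝ)| < 1 := by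
      rw [← h4, abs_div, abs_of_pos hQ0, div_lt_one hQ0, abs_lt]
      constructor <;> linarith
    have h6 : zz t - zz t' = 0 := by
      have : |zz t - zz t'| < 1 := by exact_mod_cast h5
      exact Int.abs_lt_one_iff.1 this
    rw [h6, Int.cast_zero, div_eq_zero_iff] at h4
    have h7 : (t.2 : ℝ) = t'.2 := by
      rcases h4 with h4 | h4
      · linarith
      · exact absurd h4 hQ0.ne'
    have h8 : t.2 = t'.2 := by exact_mod_cast h7
    refine Prod.ext ?_ h8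
    rw [b1, b1', he1, he2]
  -- the index set
  set s := Icc (-(2 * B : ℤ)) (2 * B) ×ˢ Icc (-(2 * B : ℤ)) (2 * B) with hs
  set X : ℤ × ℤ → ℝ := fun i => (E : ℝ) / q3 * (a.1 * i.1 ^ 2 + a.2.1 * i.1 * i.2 + a.2.2 * i.2 ^ 2) +
    c₃ * i.1 + c₄ * i.2 + c₅ - (z₀ + V / 2) / Q with hX
  set w : ℤ × ℤ → ℝ := fun i => T6.tw B i.1 * T6.tw B i.2 with hw
  have hw0 : ∀ i, 0 ≤ w i := fun i => mul_nonneg (T6.EPU_tw_nonneg _ _) (T6.EPU_tw_nonneg _ _)
  have hsmall : ∀ t ∈ F, |(mm t : ℝ)| ≤ B ∧ |(gg t : ℝ)| ≤ B := by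
    intro t htF
    obtain ⟨b1, -⟩ := hh t htF
    obtain ⟨-, -, -, a1, a2, -, -⟩ := hF t htF
    have e1 : t.1.re = M₁.re + E * mm t := by rw [b1, GPU_re]
    have e2 : t.1.im = M₁.im + E * gg t := by rw [b1, GPU_im]
    exact ⟨T6.EPU_small hEZ hr0 hr1 e1 (by push_cast; exact a1),
      T6.EPU_small hEZ hi0 hi1 e2 (by push_cast; exact a2)⟩
  have hcard : (F.card : ℝ) ≤ ∑ i ∈ s.filter (fun i => nd (X i) * (8 * T) ≤ 1), w i := by
    rw [← card_image_of_injOn hinj]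
    have h4 : F.image (fun t : OO × ℤ => (mm t, gg t)) ⊆ s.filter (fun i => nd (X i) * (8 * T) ≤ 1) := by
      intro i hi
      obtain ⟨t, htF, rfl⟩ := mem_image.1 hi
      obtain ⟨b1, b2⟩ := hh t htF
      obtain ⟨-, -, -, -, -, a3, a4⟩ := hF t htF
      obtain ⟨s1, s2⟩ := hsmall t htF
      have s1' : |mm t| ≤ (B : ℤ) := by exact_mod_cast s1
      have s2' : |gg t| ≤ (B : ℤ) := by exact_mod_cast s2
      rw [abs_le] at s1' s2'
      refine mem_filter.2 ⟨mem_product.2 ⟨mem_Icc.2 ⟨by simp only; omega, by simp only; omega⟩,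
        mem_Icc.2 ⟨by simp only; omega, by simp only; omega⟩⟩, ?_⟩
      have h5 : X (mm t, gg t) - ((-zz t : ℤ) : ℝ) = ((t.2 : ℝ) - (z₀ + V / 2)) / Q := by
        rw [sub_div, b2]
        simp only [hX]
        push_cast
        ring
      have h6 : nd (X (mm t, gg t)) ≤ (V / 2) / Q := by
        unfold nd
        refine (round_le _ (-zz t)).trans ?_
        rw [h5, abs_div, abs_of_pos hQ0]
        refine div_le_div_of_nonneg_right ?_ hQ0.le
        rw [abs_le]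
        constructor <;> linarith
      calc nd (X (mm t, gg t)) * (8 * T) ≤ (V / 2) / Q * (8 * T) :=
            mul_le_mul_of_nonneg_right h6 (by positivity)
        _ = (4 * T * V) / Q := by ring
        _ ≤ 1 := by rw [div_le_one hQ0]; exact hTV
    have h5 : ((F.image (fun t : OO × ℤ => (mm t, gg t))).card : ℝ) ≤
        ∑ i ∈ F.image (fun t : OO × ℤ => (mm t, gg t)), w i := by
      rw [← nsmul_one, ← sum_const]
      refine sum_le_sum fun i hi => ?_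
      obtain ⟨t, htF, rfl⟩ := mem_image.1 hi
      obtain ⟨s1, s2⟩ := hsmall t htF
      have r1 := T6.EPU_tw_ge hB s1
      have r2 := T6.EPU_tw_ge hB s2
      show (1 : ℝ) ≤ T6.tw B (mm t) * T6.tw B (gg t)
      nlinarith
    exact h5.trans (sum_le_sum_of_subset_of_nonneg h4 fun i _ _ => hw0 i)
  have hfj := h2 s w X T hT (fun i _ => hw0 i)
  have hBB : √((B : ℝ) * B) = B := Real.sqrt_mul_self (Nat.cast_nonneg _)
  -- the exponential sums
  have hts : ∀ h : ℕ, ‖∑ i ∈ s, (w i : ℂ) * e (h * X i)‖ ≤ √C₀ * ((B : ℝ) *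
      √((nearPts B B ((h * E : ℕ) * a.1 / q3) ((h * E : ℕ) * a.2.1 / q3) ((h * E : ℕ) * a.2.2 / q3)).card : ℝ)) := by
    intro h
    set c : Fin 5 → ℝ := ![((h * E : ℕ) : ℝ) * a.1 / q3, ((h * E : ℕ) : ℝ) * a.2.1 / q3,
      ((h * E : ℕ) : ℝ) * a.2.2 / q3, h * c₃, h * c₄] with hc
    have hc0 : c 0 = ((h * E : ℕ) : ℝ) * a.1 / q3 := rfl
    have hc1 : c 1 = ((h * E : ℕ) : ℝ) * a.2.1 / q3 := rfl
    have hc2 : c 2 = ((h * E : ℕ) : ℝ) * a.2.2 / q3 := rfl
    have hc3 : c 3 = h * c₃ := rfl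
    have hc4 : c 4 = h * c₄ := rfl
    have h4 : ∑ i ∈ s, (w i : ℂ) * e (h * X i) = T6.TS B B c * e (h * (c₅ - (z₀ + V / 2) / Q)) := by
      unfold T6.TS
      rw [hs, sum_product, sum_mul]
      refine sum_congr rfl fun m _ => ?_
      rw [sum_mul]
      refine sum_congr rfl fun g _ => ?_
      have h5 : (h : ℝ) * X (m, g) = (c 0 * m ^ 2 + c 1 * m * g + c 2 * g ^ 2 + c 3 * m + c 4 * g) +
          h * (c₅ - (z₀ + V / 2) / Q) := by
        rw [hc0, hc1, hc2, hc3, hc4]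
        simp only [hX]
        push_cast
        ring
      rw [h5, T6.EPU_e_add]
      simp only [hw]
      ring
    rw [h4, norm_mul, T6.EPU_e_norm, mul_one]
    have h5 := hW B B c hB hB
    rw [hc0, hc1, hc2] at h5
    refine abs_le_of_sq_le_sq' ?_ (by positivity) |>.2
    rw [mul_pow, mul_pow, Real.sq_sqrt (by linarith), Real.sq_sqrt (by positivity)]
    refine h5.trans (le_of_eq ?_)
    ring
  have hsum := T6.EPU_sum hB hB
  have h4 : ∑ h ∈ Ico 1 T, ‖∑ i ∈ s, (w i : ℂ) * e (h * X i)‖ ≤ √C₀ * ((B : ℝ) * NK B T E k a) := by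
    unfold NK
    rw [mul_sum, mul_sum]
    exact sum_le_sum fun h _ => hts h
  set S := NK B T E k a with hS
  have hS0 : 0 ≤ S := sum_nonneg fun _ _ => Real.sqrt_nonneg _
  have h5 : (F.card : ℝ) ≤ 2 / T * (225 * ((B : ℝ) * B) + 2 * (√C₀ * ((B : ℝ) * S))) := by
    refine hcard.trans (hfj.trans ?_)
    refine mul_le_mul_of_nonneg_left ?_ (by positivity)
    exact add_le_add hsum (mul_le_mul_of_nonneg_left h4 (by norm_num))
  refine h5.trans ?_
  rw [div_mul_eq_mul_div, div_mul_eq_mul_div]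
  refine div_le_div_of_nonneg_right ?_ hT0.le
  have h6 : 0 ≤ √C₀ := Real.sqrt_nonneg _
  have h7 : 0 ≤ (B : ℝ) * S := mul_nonneg (Nat.cast_nonneg _) hS0
  have h8 : (0 : ℝ) ≤ (B : ℝ) * B := by positivity
  nlinarith [mul_nonneg h6 h8]

end Pool.Agent.RF
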